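import Pool.Agent.K1H14.SD.Stm4
import Pool.Agent.K1H25.SD.Vec
import Pool.Agent.K1H85.SD.Avg
import Pool.Agent.K1H59.SD.TR

/-!
# Project SD, part 4: `S_IOT`
-/

set_option autoImplicit false

namespace Pool.Agent.K1H66.SD

open Pool.Agent.K1H14.SD Pool.Agent.K1H25.SD

open scoped symmDiff

universe u

variable {A : Type u} [Ring A] [Algebra ℂ A] {d : ℕ} {M : Finset (Fin d) → A} {st : A →ₗ[ℂ] A}
  {tr : A →ₗ[ℂ] ℂ}

/-- anticommutators of two levels -/
theorem acom (hE : EvenCl M st) {k l : ℕ} (hk : Even k) (hl : Even l) (N : Submodule ℂ A)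
    (h : ∀ K L : Finset (Fin d), K.card = k → L.card = l → Even (K ∩ L).card → M (K ∆ L) ∈ N)
    (x p : A) (hx : x ∈ Lev M k) (hp : p ∈ Lev M l) : x * p + p * x ∈ N := by
  unfold Lev at hx hp
  induction hx using Submodule.span_induction with
  | zero => rw [zero_mul, mul_zero, add_zero]; exact Submodule.zero_mem _
  | add a b _ _ ha hb =>
    have : (a + b) * p + p * (a + b) = (a * p + p * a) + (b * p + p * b) := by
      rw [add_mul, mul_add]; abel
    rw [this]
    exact Submodule.add_mem _ ha hb
  | smul c a _ ha =>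
    have : (c • a) * p + p * (c • a) = c • (a * p + p * a) := by
      rw [smul_mul_assoc, mul_smul_comm, smul_add]
    rw [this]
    exact Submodule.smul_mem _ _ ha
  | mem a ha =>
    obtain ⟨K, hK, rfl⟩ := ha
    have hKe : Even K.card := by rw [hK]; exact hk
    induction hp using Submodule.span_induction with
    | zero => rw [zero_mul, mul_zero, add_zero]; exact Submodule.zero_mem _
    | add a b _ _ ha hb =>
      have : M K * (a + b) + (a + b) * M K = (M K * a + a * M K) + (M K * b + b * M K) := by
        rw [add_mul, mul_add]; abel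
      rw [this]
      exact Submodule.add_mem _ ha hb
    | smul c a _ ha =>
      have : M K * (c • a) + (c • a) * M K = c • (M K * a + a * M K) := by
        rw [smul_mul_assoc, mul_smul_comm, smul_add]
      rw [this]
      exact Submodule.smul_mem _ _ ha
    | mem b hb =>
      obtain ⟨L, hL, rfl⟩ := hb
      have hLe : Even L.card := by rw [hL]; exact hl
      have hcm := hE.comm K L hKe hLe
      rcases Nat.even_or_odd (K ∩ L).card with hpar | hpar
      · rw [hpar.neg_one_pow, one_smul] at hcm
        obtain ⟨ε, -, h3⟩ := hE.mul K L hKe hLe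
        rw [← hcm, h3, ← add_smul]
        exact Submodule.smul_mem _ _ (h K L hK hL hpar)
      · rw [hpar.neg_one_pow, neg_smul, one_smul] at hcm
        rw [hcm, neg_add_cancel]
        exact Submodule.zero_mem _

/-- different levels are orthogonal -/
theorem tr_off (hE : EvenCl M st) (hT : IsTr M tr) {l : ℕ} (hl : Even l) (K : Finset (Fin d))
    (hKe : Even K.card) (hne : K.card ≠ l) (x : A) (hx : x ∈ Lev M l) :
    tr (st (M K) * x) = 0 := by
  unfold Lev at hx
  induction hx using Submodule.span_induction with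
  | zero => rw [mul_zero, map_zero]
  | add a b _ _ ha hb => rw [mul_add, map_add, ha, hb, add_zero]
  | smul c a _ ha => rw [mul_smul_comm, map_smul, ha, smul_zero]
  | mem a ha =>
    obtain ⟨L, hL, rfl⟩ := ha
    have hLe : Even L.card := by rw [hL]; exact hl
    have h1 : K ∆ L ≠ ∅ := by
      intro h
      have h2 : K = L := symmDiff_eq_bot.mp h
      exact hne (by rw [h2, hL])
    have he : Even (K ∆ L).card := by
      have h3 := card_sd K L
      obtain ⟨a, ha⟩ := hKe
      obtain ⟨b, hb⟩ := hLe
      exact ⟨a + b - (K ∩ L).card, by omega⟩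
    obtain ⟨ε, -, h3⟩ := hE.mul K L hKe hLe
    rw [hE.st_M K hKe, smul_mul_assoc, h3, map_smul, map_smul, hT.1 _ he, if_neg h1, smul_zero,
      smul_zero]

theorem t_IOT : S_IOT.{u} := by
  intro A _ _ d M st z n μ hE hd5 hd7 hz hn h
  obtain ⟨-, tr, hT⟩ := Pool.Agent.K1H59.SD.t_TR M st hE
  have hodd := hE.odd
  have hde : Even (d - 1) := by
    obtain ⟨t, ht⟩ := hodd
    exact ⟨t, by omega⟩
  have hde3 : Even (d - 3) := by
    obtain ⟨t, ht⟩ := hodd
    exact ⟨t - 1, by omega⟩
  -- the three anticommutators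
  have hzz : z * z + z * z ∈ Lev M 0 ⊔ Lev M 4 := by
    refine acom hE even_two even_two _ ?_ z z hz hz
    intro K L hK hL hKL
    have h1 := card_sd K L
    have h2 : (K ∩ L).card ≤ K.card := Finset.card_le_card Finset.inter_subset_left
    obtain ⟨t, ht⟩ := hKL
    rcases Nat.eq_zero_or_pos t with h3 | h3
    · exact Submodule.mem_sup_right (Submodule.subset_span ⟨K ∆ L, by omega, rfl⟩)
    · exact Submodule.mem_sup_left (Submodule.subset_span ⟨K ∆ L, by omega, rfl⟩)
  have hnn : n * n + n * n ∈ Lev M 0 ⊔ Lev M 4 := by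
    refine acom hE hde hde _ ?_ n n hn hn
    intro K L hK hL hKL
    have h1 := card_sd K L
    have h2 : (K ∩ L).card ≤ K.card := Finset.card_le_card Finset.inter_subset_left
    have h3 := Finset.card_union_add_card_inter K L
    have h4 : (K ∪ L).card ≤ d := by
      have := Finset.card_le_univ (K ∪ L)
      rwa [Fintype.card_fin] at this
    obtain ⟨t, ht⟩ := hKL
    obtain ⟨s, hs⟩ := hodd
    exact Submodule.mem_sup_left (Submodule.subset_span ⟨K ∆ L, by omega, rfl⟩)
  have hzn : z * n + n * z ∈ Lev M (d - 3) := by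
    refine acom hE even_two hde _ ?_ z n hz hn
    intro K L hK hL hKL
    have h1 := card_sd K L
    have h2 : (K ∩ L).card ≤ K.card := Finset.card_le_card Finset.inter_subset_left
    have h3 := Finset.card_union_add_card_inter K L
    have h4 : (K ∪ L).card ≤ d := by
      have := Finset.card_le_univ (K ∪ L)
      rwa [Fintype.card_fin] at this
    obtain ⟨t, ht⟩ := hKL
    exact Submodule.subset_span ⟨K ∆ L, by omega, rfl⟩
  have half : ∀ y : A, y + y ∈ Lev M 0 ⊔ Lev M 4 → y ∈ Lev M 0 ⊔ Lev M 4 := by
    intro y hy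
    have h1 := Submodule.smul_mem _ (2⁻¹ : ℂ) hy
    have h2 : (2⁻¹ : ℂ) • (y + y) = y := by
      rw [← two_smul ℂ y, smul_smul, inv_mul_cancel₀ (by norm_num), one_smul]
    rwa [h2] at h1
  have hone : μ • (1 : A) ∈ Lev M 0 ⊔ Lev M 4 := by
    refine Submodule.smul_mem _ _ (Submodule.mem_sup_left (Submodule.subset_span ⟨∅, ?_, ?_⟩))
    · exact Finset.card_empty
    · exact hE.one.symm
  have hw2 : z * n + n * z ∈ Lev M 0 ⊔ Lev M 4 := by
    have h1 : z * n + n * z = μ • (1 : A) - z * z - n * n := by
      rw [← h]; noncomm_ring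
    rw [h1]
    exact Submodule.sub_mem _ (Submodule.sub_mem _ hone (half _ hzz)) (half _ hnn)
  have hw : z * n + n * z = 0 := by
    have h1 := (Pool.Agent.K1H85.SD.t_AVG M st tr hE hT).2 (z * n + n * z)
    rw [h1]
    refine Finset.sum_eq_zero fun K hK => ?_
    have hKe : Even K.card := Pool.Agent.K1H85.SD.mem_evs.mp hK
    have h2 : tr (st (M K) * (z * n + n * z)) = 0 := by
      by_cases hc : K.card = d - 3
      · obtain ⟨a, ha, b, hb, hab⟩ := Submodule.mem_sup.mp hw2
        rw [← hab, mul_add, map_add,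
          tr_off hE hT (by norm_num) K hKe (by omega) a ha,
          tr_off hE hT (by decide) K hKe (by omega) b hb, add_zero]
      · exact tr_off hE hT hde3 K hKe hc _ hzn
    rw [h2, zero_smul]
  have h3 : (z - n) * (z - n) = (z + n) * (z + n) - (z * n + n * z) - (z * n + n * z) := by
    noncomm_ring
  rw [h3, hw, sub_zero, sub_zero, h]

end Pool.Agent.K1H66.SD
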